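import Pool.Agent.N24.RW.Clo
import Pool.Agent.N24.RW.Crit
import Pool.Agent.N24.RW.One

/-!
# Random orbits: primes of a given set which divide a linear form exactly once

Owner helper676. `Hit P a`: some prime of `P` divides `a` exactly once. If the sum of the reciprocals
of the primes of `P` diverges, then `Hit P (λ(c))` is true for all `c` outside a pronull set, for every
linear form `λ ≠ 0`. For countably many conditions one set of times of density zero is sufficient.
-/

set_option autoImplicit false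
set_option linter.unusedSectionVars false

namespace Pool.Agent.N676.OR

open Finset Filter Topology MeasureTheory Pool.Agent.N24.RW

/-- a prime number in `P` divides `a` exactly once -/
def Hit (P : Set ℕ) (a : ℤ) : Prop := ∃ p ∈ P, p.Prime ∧ (p : ℤ) ∣ a ∧ ¬ (p : ℤ) ^ 2 ∣ a

/-- the sum of the reciprocals of the primes in `P` diverges -/
def Big (P : Set ℕ) : Prop :=
  ¬ Summable (Set.indicator {p : ℕ | p.Prime ∧ p ∈ P} (fun p : ℕ => 1 / (p : ℝ)))

lemma Big.above {P : Set ℕ} (hP : Big P) (D : ℕ) : Big {p ∈ P | D < p} := by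
  intro h
  apply hP
  refine (summable_congr_cofinite ?_).mp h
  rw [Filter.eventuallyEq_iff_exists_mem]
  refine ⟨(Set.Iic D)ᶜ, ?_, ?_⟩
  · rw [mem_cofinite, compl_compl]
    exact Set.finite_Iic D
  · intro p hp
    have hp' : D < p := by simpa using hp
    change Set.indicator {p : ℕ | p.Prime ∧ p ∈ {p ∈ P | D < p}} (fun p : ℕ => 1 / (p : ℝ)) p =
      Set.indicator {p : ℕ | p.Prime ∧ p ∈ P} (fun p : ℕ => 1 / (p : ℝ)) p
    by_cases h1 : p.Prime ∧ p ∈ P
    · rw [Set.indicator_of_mem (show p ∈ {p : ℕ | p.Prime ∧ p ∈ P} from h1),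
        Set.indicator_of_mem (show p ∈ {p : ℕ | p.Prime ∧ p ∈ {p ∈ P | D < p}} from
          ⟨h1.1, h1.2, hp'⟩)]
    · rw [Set.indicator_of_notMem (show p ∉ {p : ℕ | p.Prime ∧ p ∈ P} from h1),
        Set.indicator_of_notMem (show p ∉ {p : ℕ | p.Prime ∧ p ∈ {p ∈ P | D < p}} from
          fun h2 => h1 ⟨h2.1, h2.2.1⟩)]

section

variable {ι : Type} [Fintype ι]

/-- the value of a linear form -/
def lin (lam : ι → ℤ) (c : ι → ℤ) : ℤ := ∑ i, lam i * c i

/-- the linear form modulo `q` -/
def linq (lam : ι → ℤ) (q : ℕ) : (ι → ZMod q) →+ ZMod q where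
  toFun := fun x => ∑ i, (lam i : ZMod q) * x i
  map_zero' := by simp
  map_add' := by
    intro x y
    simp only [Pi.add_apply, mul_add, Finset.sum_add_distrib]

lemma linq_surj [DecidableEq ι] {lam : ι → ℤ} {l : ι} {q : ℕ} (h : IsUnit (lam l : ZMod q)) :
    Function.Surjective (linq lam q) := by
  intro y
  obtain ⟨u, hu⟩ := h
  refine ⟨Pi.single l (((u⁻¹ : (ZMod q)ˣ) : ZMod q) * y), ?_⟩
  change ∑ i, (lam i : ZMod q) * (Pi.single l (((u⁻¹ : (ZMod q)ˣ) : ZMod q) * y) : ι → ZMod q) i = y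
  rw [Finset.sum_eq_single l]
  · rw [Pi.single_eq_same, ← hu, ← mul_assoc, Units.mul_inv, one_mul]
  · intro i _ hi
    rw [Pi.single_eq_of_ne hi, mul_zero]
  · intro h
    exact absurd (Finset.mem_univ l) h

/-- the multiples of `p` different from `0` modulo `p ^ 2` -/
def exac (p : ℕ) : Set (ZMod (p ^ 2)) := {a | p ∣ a.val ∧ a.val ≠ 0}

lemma exac_card {p : ℕ} (hp : 2 ≤ p) : (p : ℝ) / 2 ≤ ((exac p).ncard : ℝ) := by
  classical
  have : NeZero (p ^ 2) := ⟨by positivity⟩
  have hp2 : (2 : ℝ) ≤ p := by exact_mod_cast hp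
  have h0 : exac p = ((Finset.univ.filter fun a : ZMod (p ^ 2) => p ∣ a.val ∧ a.val ≠ 0 :
      Finset (ZMod (p ^ 2))) : Set (ZMod (p ^ 2))) := by
    ext a
    simp [exac]
  have h2 : (Finset.univ.filter fun a : ZMod (p ^ 2) => p ∣ a.val) ⊆
      insert 0 (Finset.univ.filter fun a : ZMod (p ^ 2) => p ∣ a.val ∧ a.val ≠ 0) := by
    intro a ha
    simp only [Finset.mem_insert, Finset.mem_filter, Finset.mem_univ, true_and] at ha ⊢
    by_cases h0 : a = 0
    · exact Or.inl h0
    · exact Or.inr ⟨ha, by rwa [Ne, ZMod.val_eq_zero]⟩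
  have h3 := (Finset.card_le_card h2).trans (Finset.card_insert_le _ _)
  rw [one_card_mult p (by omega)] at h3
  rw [h0, Set.ncard_coe_finset]
  have h4 : (p : ℝ) ≤ ((Finset.univ.filter fun a : ZMod (p ^ 2) => p ∣ a.val ∧ a.val ≠ 0).card : ℝ)
      + 1 := by exact_mod_cast h3
  linarith

theorem pro_hit {P : Set ℕ} (hP : Big P) {lam : ι → ℤ} (hlam : lam ≠ 0) :
    ProNull {c : ι → ℤ | ¬ Hit P (lin lam c)} := by
  classical
  obtain ⟨l, hl⟩ : ∃ l, lam l ≠ 0 := by
    by_contra h
    push Not at h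
    exact hlam (funext h)
  set w : ℕ → ℝ := fun p => if p ∈ P then 1 / (2 * (p : ℝ)) else 0 with hw
  have hns : ¬ Summable (fun p : ℕ => if p.Prime then w p else 0) := by
    intro hsum
    have h1 := hsum.mul_left 2
    have h2 : Set.indicator {p : ℕ | p.Prime ∧ p ∈ P} (fun p : ℕ => 1 / (p : ℝ)) =
        fun p : ℕ => 2 * (if p.Prime then w p else 0) := by
      funext p
      by_cases h : p.Prime
      · by_cases h' : p ∈ P
        · have h3 : (p : ℝ) ≠ 0 := by exact_mod_cast h.ne_zero
          rw [Set.indicator_of_mem (show p ∈ {p : ℕ | p.Prime ∧ p ∈ P} from ⟨h, h'⟩), if_pos h, hw]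
          simp only [h', if_true]
          field_simp
        · rw [Set.indicator_of_notMem (show p ∉ {p : ℕ | p.Prime ∧ p ∈ P} from fun h3 => h' h3.2),
            if_pos h, hw]
          simp [h']
      · rw [Set.indicator_of_notMem (show p ∉ {p : ℕ | p.Prime ∧ p ∈ P} from fun h3 => h h3.1),
          if_neg h, mul_zero]
    apply hP
    rw [h2]
    exact h1
  have h := t_CRIT ι (fun p => p ^ 2) (fun p hp => Nat.pos_of_ne_zero (by
      have := hp.pos
      positivity)) (fun p p' hp hp' hne =>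
      Nat.Coprime.pow 2 2 ((Nat.coprime_primes hp hp').mpr hne))
    (fun p => if p ∈ P then (linq lam (p ^ 2)) ⁻¹' (exac p) else ∅) (lam l).natAbs w
    (fun p => by
      simp only [hw]
      split_ifs <;> positivity) hns (fun p hp hlp => by
      by_cases hpP : p ∈ P
      · simp only [hw, hpP, if_true]
        have : NeZero (p ^ 2) := ⟨by have := hp.pos; positivity⟩
        have hun : IsUnit ((lam l : ℤ) : ZMod (p ^ 2)) := by
          rw [ZMod.coe_int_isUnit_iff_isCoprime, Nat.cast_pow]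
          apply IsCoprime.pow_left
          rw [Int.isCoprime_iff_gcd_eq_one]
          have h7 : Nat.Coprime p (lam l).natAbs := by
            rw [Nat.Prime.coprime_iff_not_dvd hp]
            intro h8
            have := Nat.le_of_dvd (Int.natAbs_pos.2 hl) h8
            omega
          exact h7
        have h1 := Clo.ncard_preimage (linq lam (p ^ 2)) (linq_surj hun) (exac p)
        rw [Clo.card_pi, Nat.card_eq_fintype_card, ZMod.card] at h1
        have h2 := exac_card hp.two_le
        have hp0 : (0 : ℝ) < p := by exact_mod_cast hp.pos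
        have h3 : ((((linq lam (p ^ 2)) ⁻¹' (exac p)).ncard : ℕ) : ℝ) * ((p : ℝ) ^ 2) =
            ((exac p).ncard : ℝ) * (((p ^ 2 : ℕ) : ℝ) ^ Fintype.card ι) := by
          exact_mod_cast h1
        have h4 : (0 : ℝ) ≤ (((p ^ 2 : ℕ) : ℝ) ^ Fintype.card ι) := by positivity
        have h5 := mul_le_mul_of_nonneg_right h2 h4
        rw [← h3] at h5
        have h6 : 1 / (2 * (p : ℝ)) * (((p ^ 2 : ℕ) : ℝ) ^ Fintype.card ι) * (p : ℝ) ^ 2 ≤
            ((((linq lam (p ^ 2)) ⁻¹' (exac p)).ncard : ℕ) : ℝ) * ((p : ℝ) ^ 2) := by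
          refine le_trans (le_of_eq ?_) h5
          field_simp
        exact le_of_mul_le_mul_right h6 (by positivity)
      · simp [hw, hpP])
  refine Clo.mono (fun c hc => ?_) h
  intro p hp hlp hmem
  apply hc
  by_cases hpP : p ∈ P
  · rw [if_pos hpP] at hmem
    have h1 : linq lam (p ^ 2) (fun i => (c i : ZMod (p ^ 2))) = ((lin lam c : ℤ) : ZMod (p ^ 2)) := by
      change ∑ i, (lam i : ZMod (p ^ 2)) * (c i : ZMod (p ^ 2)) = _
      unfold lin
      push_cast
      rfl
    have h2 : ((lin lam c : ℤ) : ZMod (p ^ 2)) ∈ exac p := by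
      rw [← h1]
      exact hmem
    exact ⟨p, hpP, hp, (one_dvd p hp.one_lt.le _).1 h2.1, (one_val_ne p hp.one_lt.le _).1 h2.2⟩
  · rw [if_neg hpP] at hmem
    exact absurd hmem (Set.notMem_empty _)

/-- finitely many sets of primes -/
theorem pro_hits {PP : Set (Set ℕ)} (hf : PP.Finite) (hP : ∀ P ∈ PP, Big P) {lam : ι → ℤ}
    (hlam : lam ≠ 0) : ProNull {c : ι → ℤ | ¬ ∀ P ∈ PP, Hit P (lin lam c)} := by
  classical
  obtain ⟨l, hl⟩ : ∃ l, lam l ≠ 0 := by
    by_contra h
    push Not at h
    exact hlam (funext h)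
  have : Nonempty ι := ⟨l⟩
  induction PP, hf using Set.Finite.induction_on with
  | empty =>
    refine Clo.mono (B := ∅) ?_ (Clo.finite Set.finite_empty)
    intro c hc
    exact absurd (fun P hP => absurd hP (Set.notMem_empty _)) hc
  | @insert P QQ _ _ ih =>
    refine Clo.mono ?_ (Clo.union (pro_hit (hP P (Set.mem_insert _ _)) hlam)
      (ih fun Q hQ => hP Q (Set.mem_insert_of_mem _ hQ)))
    intro c hc
    by_cases h1 : Hit P (lin lam c)
    · right
      intro h2
      apply hc
      intro Q hQ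
      rcases Set.mem_insert_iff.1 hQ with rfl | hQ
      · exact h1
      · exact h2 Q hQ
    · left
      exact h1

end

end Pool.Agent.N676.OR
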