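import Pool.Agent.N676.OR.Pro
import Pool.Agent.N24.RW.Main
import Pool.Agent.N24.RW.Orb
import Pool.Agent.N24.RW.Erg

/-!
# Random orbits: one set of times of density zero for countably many conditions

Owner helper676.
-/

set_option autoImplicit false

set_option linter.unusedSectionVars false

namespace Pool.Agent.N676.OR

open Finset Filter Topology MeasureTheory Pool.Agent.N24.RW

/-- a set of natural numbers of natural density zero -/
def DensityZero (E : Set ℕ) : Prop :=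
  Tendsto (fun N : ℕ => (({n : ℕ | n < N ∧ n ∈ E}.ncard : ℕ) : ℝ) / (N : ℝ)) atTop (𝓝 0)

lemma fin_lt (N : ℕ) (E : Set ℕ) : {n : ℕ | n < N ∧ n ∈ E}.Finite :=
  (Set.finite_Iio N).subset fun _ hn => hn.1

lemma dz_iff (E : Set ℕ) : DensityZero E ↔ ∀ ε : ℝ, 0 < ε → ∃ N₀ : ℕ, ∀ N : ℕ, N₀ ≤ N →
    (({n : ℕ | n < N ∧ n ∈ E}.ncard : ℕ) : ℝ) ≤ ε * N := by
  unfold DensityZero
  rw [Metric.tendsto_atTop]
  constructor
  · intro h ε hε
    obtain ⟨N₀, hN₀⟩ := h ε hε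
    refine ⟨N₀ + 1, fun N hN => ?_⟩
    have h1 := hN₀ N (by omega)
    have hN0 : (0 : ℝ) < N := by exact_mod_cast (by omega : 0 < N)
    rw [Real.dist_eq, sub_zero, abs_of_nonneg (by positivity), div_lt_iff₀ hN0] at h1
    exact h1.le
  · intro h ε hε
    obtain ⟨N₀, hN₀⟩ := h (ε / 2) (by positivity)
    refine ⟨N₀ + 1, fun N hN => ?_⟩
    have h1 := hN₀ N (by omega)
    have hN0 : (0 : ℝ) < N := by exact_mod_cast (by omega : 0 < N)
    rw [Real.dist_eq, sub_zero, abs_of_nonneg (by positivity), div_lt_iff₀ hN0]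
    nlinarith

lemma dz_union {A B : Set ℕ} (hA : DensityZero A) (hB : DensityZero B) : DensityZero (A ∪ B) := by
  rw [dz_iff] at *
  intro ε hε
  obtain ⟨N₁, h1⟩ := hA (ε / 2) (by positivity)
  obtain ⟨N₂, h2⟩ := hB (ε / 2) (by positivity)
  refine ⟨max N₁ N₂, fun N hN => ?_⟩
  have h3 := h1 N ((le_max_left _ _).trans hN)
  have h4 := h2 N ((le_max_right _ _).trans hN)
  have h5 : {n : ℕ | n < N ∧ n ∈ A ∪ B} ⊆ {n : ℕ | n < N ∧ n ∈ A} ∪ {n : ℕ | n < N ∧ n ∈ B} := by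
    rintro n ⟨hn, h | h⟩
    · exact Or.inl ⟨hn, h⟩
    · exact Or.inr ⟨hn, h⟩
  have h6 := (Set.ncard_le_ncard h5 ((fin_lt N A).union (fin_lt N B))).trans
    (Set.ncard_union_le _ _)
  have h7 : (({n : ℕ | n < N ∧ n ∈ A ∪ B}.ncard : ℕ) : ℝ) ≤
      ({n : ℕ | n < N ∧ n ∈ A}.ncard : ℕ) + ({n : ℕ | n < N ∧ n ∈ B}.ncard : ℕ) := by
    exact_mod_cast h6
  linarith

lemma dz_empty : DensityZero ∅ := by
  rw [dz_iff]
  intro ε hε
  refine ⟨0, fun N _ => ?_⟩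
  have : {n : ℕ | n < N ∧ n ∈ (∅ : Set ℕ)} = ∅ := by
    ext n
    simp
  rw [this, Set.ncard_empty]
  simp only [Nat.cast_zero]
  positivity

theorem diag (A : ℕ → Set ℕ) (hA : ∀ k, DensityZero (A k)) :
    ∃ E : Set ℕ, DensityZero E ∧ ∀ k, (A k \ E).Finite := by
  classical
  set B : ℕ → Set ℕ := fun k => ⋃ j ∈ Finset.range (k + 1), A j with hB
  have hBm : Monotone B := by
    intro k k' hkk t ht
    rw [hB, Set.mem_iUnion₂] at ht ⊢
    obtain ⟨j, hj, hjt⟩ := ht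
    exact ⟨j, Finset.mem_range.2 (lt_of_lt_of_le (Finset.mem_range.1 hj) (by omega)), hjt⟩
  have hAB : ∀ k, A k ⊆ B k := by
    intro k t ht
    rw [hB, Set.mem_iUnion₂]
    exact ⟨k, Finset.mem_range.2 (by omega), ht⟩
  have hBz : ∀ k, DensityZero (B k) := by
    have : ∀ s : Finset ℕ, DensityZero (⋃ j ∈ s, A j) := by
      intro s
      induction s using Finset.induction_on with
      | empty => simpa using dz_empty
      | insert a s _ ih =>
        rw [Finset.set_biUnion_insert]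
        exact dz_union (hA a) ih
    exact fun k => this _
  have hg : ∀ k : ℕ, ∃ g : ℕ, ∀ N : ℕ, g ≤ N →
      (({n : ℕ | n < N ∧ n ∈ B k}.ncard : ℕ) : ℝ) ≤ 1 / (k + 1) * N :=
    fun k => (dz_iff _).1 (hBz k) _ (by positivity)
  choose g hg using hg
  set κ : ℕ → ℕ := fun t => Nat.findGreatest (fun k => g k ≤ t) t with hκ
  have hκmono : Monotone κ := by
    intro t t' htt
    exact Nat.findGreatest_mono (fun k hk => le_trans hk htt) htt
  have hκge : ∀ k t, k ≤ t → g k ≤ t → k ≤ κ t := fun k t h1 h2 => Nat.le_findGreatest h1 h2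
  have hκsp : ∀ t, κ t ≠ 0 → g (κ t) ≤ t := by
    intro t h0
    exact Nat.findGreatest_of_ne_zero (P := fun k => g k ≤ t) (n := t) rfl h0
  refine ⟨{t | t ∈ B (κ t)}, ?_, ?_⟩
  · rw [dz_iff]
    intro ε hε
    obtain ⟨k₀, hk₀⟩ := exists_nat_one_div_lt hε
    refine ⟨k₀ + 1 + g (k₀ + 1), fun N hN => ?_⟩
    have hk : k₀ + 1 ≤ κ N := hκge _ _ (by omega) (by omega)
    have hgN : g (κ N) ≤ N := hκsp N (by omega)
    have hsub : {n : ℕ | n < N ∧ n ∈ {t | t ∈ B (κ t)}} ⊆ {n : ℕ | n < N ∧ n ∈ B (κ N)} := by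
      rintro t ⟨ht, ht'⟩
      exact ⟨ht, hBm (hκmono ht.le) ht'⟩
    have h3 := hg (κ N) N hgN
    have h4 : (({n : ℕ | n < N ∧ n ∈ {t | t ∈ B (κ t)}}.ncard : ℕ) : ℝ) ≤
        ({n : ℕ | n < N ∧ n ∈ B (κ N)}.ncard : ℕ) := by
      exact_mod_cast Set.ncard_le_ncard hsub (fin_lt _ _)
    refine h4.trans (h3.trans ?_)
    have h5 : 1 / ((κ N : ℕ) + 1 : ℝ) ≤ ε := by
      refine le_trans ?_ hk₀.le
      apply one_div_le_one_div_of_le (by positivity)
      have : ((k₀ + 1 : ℕ) : ℝ) ≤ (κ N : ℕ) := by exact_mod_cast hk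
      push_cast at this
      linarith
    exact mul_le_mul_of_nonneg_right h5 (Nat.cast_nonneg _)
  · intro k
    refine (Set.finite_Iio (k + g k + 1)).subset ?_
    rintro t ⟨ht, ht'⟩
    simp only [Set.mem_Iio]
    by_contra hlt
    exact ht' (hBm (hκge k t (by omega) (by omega)) (hAB k ht))

/-- the main theorem of the engine -/
theorem rw_main : S_MAIN := t_MAIN t_ORB t_ERG

theorem an_dz {ι : Type} [Fintype ι] [DecidableEq ι] {W : Walk ι} {v : ι → ℤ} {B : Set (ι → ℤ)}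
    (h : AlmostNever W v B) : ∀ᵐ w ∂(words W.m), DensityZero {t : ℕ | orb W v w t ∈ B} := by
  unfold AlmostNever at h
  filter_upwards [h] with w hw
  unfold DensityZero
  exact hw

theorem one_of_all {ι : Type} [Fintype ι] [DecidableEq ι] (hι : 2 ≤ Fintype.card ι) (W : Walk ι)
    {v : ι → ℤ} (hv : v ≠ 0) {P : Set ℕ} (hP : Big P) {lam : ι → ℤ} (hlam : lam ≠ 0) :
    ∀ᵐ w ∂(words W.m), DensityZero {t : ℕ | ¬ Hit P (lin lam (orb W v w t))} := by
  have h1 : ProNull {c : ι → ℤ | ¬ Hit P (lin lam c)} := pro_hit hP hlam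
  have h2 : AlmostNever W v {c : ι → ℤ | ¬ Hit P (lin lam c)} := rw_main ι hι W v hv _ h1
  filter_upwards [an_dz h2] with w hw
  exact hw

/-- One set of times for countably many sets of primes, all vectors `v` and all linear forms. -/
theorem all_at_once {ι : Type} [Fintype ι] [DecidableEq ι] (hι : 2 ≤ Fintype.card ι) (W : Walk ι)
    {QQ : Set (Set ℕ)} (hc : QQ.Countable) (hQ : ∀ P ∈ QQ, Big P) :
    ∀ᵐ w ∂(words W.m), ∃ E : Set ℕ, DensityZero E ∧ ∀ v : ι → ℤ, v ≠ 0 → ∀ lam : ι → ℤ, lam ≠ 0 →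
      ∀ P ∈ QQ, {t : ℕ | t ∉ E ∧ ¬ Hit P (lin lam (orb W v w t))}.Finite := by
  classical
  have := hc.to_subtype
  have hall : ∀ᵐ w ∂(words W.m), ∀ x : QQ × {lam : ι → ℤ // lam ≠ 0} × {v : ι → ℤ // v ≠ 0},
      DensityZero {t : ℕ | ¬ Hit x.1.1 (lin x.2.1.1 (orb W x.2.2.1 w t))} := by
    rw [ae_all_iff]
    intro x
    exact one_of_all hι W x.2.2.2 (hQ _ x.1.2) x.2.1.2
  filter_upwards [hall] with w hw
  by_cases hne : Nonempty (QQ × {lam : ι → ℤ // lam ≠ 0} × {v : ι → ℤ // v ≠ 0})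
  · obtain ⟨f, hf⟩ := exists_surjective_nat (QQ × {lam : ι → ℤ // lam ≠ 0} × {v : ι → ℤ // v ≠ 0})
    obtain ⟨E, hE1, hE2⟩ := diag
      (fun k => {t : ℕ | ¬ Hit (f k).1.1 (lin (f k).2.1.1 (orb W (f k).2.2.1 w t))})
      (fun k => hw (f k))
    refine ⟨E, hE1, fun v hv lam hlam P hP => ?_⟩
    obtain ⟨k, hk⟩ := hf (⟨P, hP⟩, ⟨lam, hlam⟩, ⟨v, hv⟩)
    have h1 := hE2 k
    rw [hk] at h1
    refine h1.subset ?_
    rintro t ⟨ht1, ht2⟩
    exact ⟨ht2, ht1⟩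
  · refine ⟨∅, dz_empty, fun v hv lam hlam P hP => ?_⟩
    exact absurd ⟨(⟨P, hP⟩, ⟨lam, hlam⟩, ⟨v, hv⟩)⟩ hne

/-- The exceptional set of the values of every linear form is pronull, and for almost every word there
is one set of times of density zero for all the data, vectors and linear forms. -/
theorem orbit_principle {𝔇 : Type} [Countable 𝔇] (good : 𝔇 → ℤ → Prop)
    (h : ∀ D, ∃ PP : Set (Set ℕ), PP.Finite ∧ (∀ P ∈ PP, Big P) ∧
      ∀ a : ℤ, (∀ P ∈ PP, Hit P a) → good D a) :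
    (∀ (ι : Type) [Fintype ι] (lam : ι → ℤ), lam ≠ 0 → ∀ D,
      ProNull {c : ι → ℤ | ¬ good D (∑ i, lam i * c i)}) ∧
    (∀ (ι : Type) [Fintype ι] [DecidableEq ι], 2 ≤ Fintype.card ι → ∀ W : Walk ι,
      ∀ᵐ w ∂(words W.m), ∃ E : Set ℕ, DensityZero E ∧ ∀ v : ι → ℤ, v ≠ 0 → ∀ lam : ι → ℤ,
        lam ≠ 0 → ∀ D, {t : ℕ | t ∉ E ∧ ¬ good D (∑ i, lam i * orb W v w t i)}.Finite) := by
  classical
  choose PP h1 h2 h3 using h
  refine ⟨fun ι _ lam hlam D => ?_, fun ι _ _ hι W => ?_⟩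
  · refine Clo.mono ?_ (pro_hits (h1 D) (h2 D) hlam)
    intro c hc hall
    exact hc (h3 D _ hall)
  · have hQ : ∀ P ∈ ⋃ D, PP D, Big P := by
      intro P hP
      obtain ⟨D, hD⟩ := Set.mem_iUnion.1 hP
      exact h2 D P hD
    filter_upwards [all_at_once hι W (Set.countable_iUnion fun D => (h1 D).countable) hQ] with w hw
    obtain ⟨E, hE1, hE2⟩ := hw
    refine ⟨E, hE1, fun v hv lam hlam D => ?_⟩
    have hfin : (⋃ P ∈ PP D, {t : ℕ | t ∉ E ∧ ¬ Hit P (lin lam (orb W v w t))}).Finite :=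
      (h1 D).biUnion fun P hP => hE2 v hv lam hlam P (Set.mem_iUnion.2 ⟨D, hP⟩)
    refine hfin.subset ?_
    rintro t ⟨ht1, ht2⟩
    rw [Set.mem_iUnion₂]
    by_contra hcon
    push Not at hcon
    apply ht2
    refine h3 D _ fun P hP => ?_
    by_contra hno
    exact hcon P hP ⟨ht1, hno⟩

end Pool.Agent.N676.OR
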