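import Mathlib

/-! The set of the integral polynomials is countable. Owner helper676. -/

set_option autoImplicit false

namespace Pool.Agent.N676.OR

open Polynomial

theorem countable_poly : Countable ℤ[X] := by
  rw [← Cardinal.mk_le_aleph0_iff]
  exact (Polynomial.cardinalMk_le_max).trans (max_le Cardinal.mk_le_aleph0 le_rfl)

end Pool.Agent.N676.OR
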