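import Pool.Agent.N676.OR.FD
import Pool.Agent.R925.ZC.Res

/-!
# Random orbits: adelic zero-cycles on the twists of a cyclic covering

Owner helper676. The theorem `zc_main` of `Pool.Agent.R925.ZC` for all integers `a` which are divisible
exactly once by a prime of each of finitely many sets of primes.
-/

set_option autoImplicit false
set_option linter.unusedSectionVars false

namespace Pool.Agent.N676.OR

open Finset Polynomial Pool.Agent.R925.FD Pool.Agent.R925.ZC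
open Pool.Agent.W401.Cheb Pool.Agent.W723.SecC

lemma norm_once {p : ℕ} [hp : Fact p.Prime] {a : ℤ} (hpa : (p : ℤ) ∣ a)
    (hpa2 : ¬ (p : ℤ) ^ 2 ∣ a) : ‖(a : ℚ_[p])‖ = (p : ℝ)⁻¹ := by
  obtain ⟨n', hn'⟩ := hpa
  have h2 : ¬ (p : ℤ) ∣ n' := by
    rintro ⟨n'', hn''⟩
    exact hpa2 ⟨n'', by rw [hn', hn'']; ring⟩
  have h3 : ‖(n' : ℚ_[p])‖ = 1 := by
    refine le_antisymm (Padic.norm_int_le_one n') ?_
    by_contra hc
    rw [not_le, Padic.norm_intCast_lt_one_iff] at hc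
    exact h2 hc
  rw [hn']
  push_cast
  rw [norm_mul, h3, mul_one, Padic.norm_p]

variable {K : Type} [Fintype K] [DecidableEq K] {b : ℤ} {g : K → ℤ[X]} {h : ℤ[X]}

/-- **The theorem on adelic zero-cycles.** -/
theorem zc_once (hb : b ≠ 0) (hg0 : ∀ k, g k ≠ 0) (hh1 : 1 ≤ h.natDegree)
    (hdeg : ∀ k, 2 ∣ (g k).natDegree)
    (hgg : ∀ k l, k ≠ l →
      IsCoprime ((g k).map (Int.castRingHom ℚ)) ((g l).map (Int.castRingHom ℚ)))
    (hgh : ∀ k, IsCoprime (h.map (Int.castRingHom ℚ)) ((g k).map (Int.castRingHom ℚ))) :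
    ∃ PP : Set (Set ℕ), PP.Finite ∧ (∀ P ∈ PP, Big P) ∧ ∀ a : ℤ, (∀ P ∈ PP, Hit P a) →
      ∀ m, Even m → m ∣ h.natDegree → ∀ (d : ℤ) (Z : AdelicCycle m b a g h), Z.Parity d →
        Z.Orthogonal → ∃ n : K → ℤ, (∀ k, Squarefree (n k)) ∧
          IsClassZ d b (fun k => (n k : ℚ)) ∧ ZPersistent d g h (fun k => (n k : ℚ)) ∧
          (∀ k, IsSquare (cycVal Z.re k * (n k : ℝ))) ∧
          ∀ k (p : Nat.Primes), IsSquare (cycVal (Z.pa p) k * (n k : ℚ_[(p : ℕ)])) := by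
  classical
  have hh0 : h ≠ 0 := by
    rintro rfl
    rw [natDegree_zero] at hh1
    omega
  obtain ⟨N, hNpos, hgood⟩ := exists_good b hb g h hg0 hh0 hgg hgh
  set D : Finset ℤ := (Finset.Icc (-(N : ℤ)) N).filter (fun s => s ≠ 0) with hD
  have hD0 : ∀ s ∈ D, s ≠ 0 := fun s hs => (mem_filter.1 hs).2
  set Δ : Finset ((K → ℤ) × ℤ) := ((Fintype.piFinset fun _ : K => D) ×ˢ ({0, 1} : Finset ℤ)).filter
    (fun s => ¬ ZPersistent s.2 g h (fun k => (s.1 k : ℚ))) with hΔ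
  -- for each class there are many primes
  have hex : ∀ s ∈ Δ, ∃ P : Set ℕ, Big P ∧ ∀ p ∈ P, ∀ _ : Fact p.Prime,
      ¬ p ∣ N ∧ ¬ ZR p s.2 g h s.1 := by
    intro s hs
    rw [hΔ, mem_filter, mem_product, Fintype.mem_piFinset] at hs
    obtain ⟨⟨hsD, -⟩, hnp⟩ := hs
    unfold ZPersistent at hnp
    push Not at hnp
    obtain ⟨σ, hσ⟩ := hnp
    obtain ⟨L, iF, iN, iG, τ, m, hm, hL⟩ := chebZ s.2 b g h hh0 hh1 hdeg N hNpos hgood s.1
      (fun k => hD0 _ (hsD k)) σ (by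
        intro S h1 h2 h3
        obtain ⟨k, hk⟩ := hσ S h3 (fun β hβ => ⟨h1 β hβ, h2 β hβ⟩)
        refine ⟨k, fun y hy => ?_⟩
        have h4 := hk y hy
        rw [Rat.cast_intCast] at h4
        exact h4)
    refine ⟨frobSet L τ (m * N), frob_big L τ (m * N) (Nat.mul_pos hm hNpos), fun p hp _ => ?_⟩
    exact ⟨fun h4 => hp.2.1 (h4.trans (Dvd.intro_left _ rfl)),
      hL p ⟨hp.1, fun h4 => hp.2.1 (h4.trans (Dvd.intro _ rfl)), hp.2.2⟩⟩
  choose! P hPbig hP using hex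
  refine ⟨P '' (Δ : Set ((K → ℤ) × ℤ)), Δ.finite_toSet.image P, ?_, ?_⟩
  · rintro _ ⟨s, hs, rfl⟩
    exact hPbig s hs
  · intro a hhit m hm hmh d Z hodd hZ
    by_contra hno
    obtain ⟨n, hn1, hn2, hn3, hn4⟩ := class_of_orthogonal hb hg0 hh0 hdeg hgg hgh Z hodd hZ
    have hnd : ∀ k, ∀ p : ℕ, p.Prime → ¬ p ∣ N → ¬ (p : ℤ) ∣ n k := by
      intro k p hp hpN
      have hpF : Fact p.Prime := ⟨hp⟩
      exact not_dvd_of_sq (hgood p hpN) hdeg (Z.pa ⟨p, hp⟩) k (hn1 k) (hn4 k ⟨p, hp⟩)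
    have hsΔ : (n, d % 2) ∈ Δ := by
      rw [hΔ, mem_filter, mem_product, Fintype.mem_piFinset]
      refine ⟨⟨fun k => ?_, ?_⟩, fun hper => hno ⟨n, hn1, hn2, ?_, hn3, hn4⟩⟩
      · change n k ∈ D
        rw [hD, mem_filter, Finset.mem_Icc]
        have h3 := Nat.le_of_dvd hNpos (dvd_of_primes (hn1 k) hNpos (hnd k))
        refine ⟨⟨by omega, by omega⟩, (hn1 k).ne_zero⟩
      · rw [Finset.mem_insert, Finset.mem_singleton]
        change d % 2 = 0 ∨ d % 2 = 1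
        omega
      · intro σ
        obtain ⟨S, hS1, hS2, hS3⟩ := hper σ
        exact ⟨S, hS1.trans (even_emod d), hS2, hS3⟩
    obtain ⟨p, hpP, hpp, hpa, hpa2⟩ := hhit (P (n, d % 2)) ⟨_, hsΔ, rfl⟩
    have hpF : Fact p.Prime := ⟨hpp⟩
    obtain ⟨hpN, hR⟩ := hP _ hsΔ p hpP hpF
    apply hR
    exact reducesZ (hgood p hpN) hdeg hm hmh (norm_once hpa hpa2) (Z.pa ⟨p, hpF.out⟩)
      ((hodd.2 ⟨p, hpF.out⟩).trans (even_emod d).symm) n (fun k => hnd k p hpF.out hpN)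
      (fun k => hn4 k ⟨p, hpF.out⟩)

end Pool.Agent.N676.OR
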