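import Pool.Agent.N676.OR.Pro
import Pool.Agent.R925.FD.Sec4

/-!
# Random orbits: twists of cyclic coverings

Owner helper676. The theorems of `Pool.Agent.R925.FD` (finite descent and sections for the curves
`b y ^ n = ∏ k, g k (z)`, `a x ^ m = h (z)`) for all integers `a` which are divisible exactly once by
a prime of each of finitely many sets of primes (the integer `a` is not supposed to be squarefree).
-/

set_option autoImplicit false
set_option linter.unusedSectionVars false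

namespace Pool.Agent.N676.OR

open Finset Polynomial IsDedekindDomain NumberField
open Pool.Agent.R925.FD Pool.Agent.TH954 Pool.Agent.TH942
open Pool.Agent.W401.Cheb Pool.Agent.W723.SecC

/-- the primes with a given Frobenius element -/
theorem frob_big (L : Type) [Field L] [NumberField L] [IsGalois ℚ L] (τ : Gal(L/ℚ)) (m : ℕ)
    (hm : 0 < m) : Big (frobSet L τ m) := by
  classical
  intro hs
  obtain ⟨δ, C, hδ, hcount⟩ := count L τ m hm
  obtain ⟨N, hN⟩ := diverge (frobSet L τ m) δ C hδ hcount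
    ((∑' p : ℕ, Set.indicator {p : ℕ | p.Prime ∧ p ∈ frobSet L τ m} (fun p : ℕ => 1 / (p : ℝ)) p)
      + 1)
  have h1 : ∑ n ∈ range N, Set.indicator (frobSet L τ m) (fun _ => (1 : ℝ)) n *
      (1 / ((n : ℝ) + 1)) ≤
      ∑ n ∈ range N, Set.indicator {p : ℕ | p.Prime ∧ p ∈ frobSet L τ m}
        (fun p : ℕ => 1 / (p : ℝ)) n := by
    refine sum_le_sum fun n _ => ?_
    by_cases hn : n ∈ frobSet L τ m
    · have hp : n.Prime := hn.1
      have h0 : (0 : ℝ) < n := by exact_mod_cast hp.pos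
      rw [Set.indicator_of_mem hn, Set.indicator_of_mem
        (show n ∈ {p : ℕ | p.Prime ∧ p ∈ frobSet L τ m} from ⟨hp, hn⟩), one_mul]
      exact one_div_le_one_div_of_le h0 (by linarith)
    · rw [Set.indicator_of_notMem hn, zero_mul]
      exact Set.indicator_nonneg (fun _ _ => by positivity) _
  have h2 := hs.sum_le_tsum (range N) (fun n _ =>
    Set.indicator_nonneg (fun _ _ => by positivity) _)
  linarith

/-- At a prime which divides `a` exactly once, a point of the covering over `ℚ_p` reduces to a zero of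
`h`. -/
theorem reduces_once {p : ℕ} [hp : Fact p.Prime] {K : Type} {n m : ℕ} (hn : 0 < n) (hm : 2 ≤ m)
    {g : K → ℤ[X]} {h : ℤ[X]}
    (hdeg : ∀ k, n ∣ (g k).natDegree) (hdegh : m ∣ h.natDegree)
    (hNC : ∀ u v : ZMod p, (u ≠ 0 ∨ v ≠ 0) → ∀ k, hom h u v = 0 → hom (g k) u v ≠ 0)
    {a : ℤ} (hpa : (p : ℤ) ∣ a) (hpa2 : ¬ (p : ℤ) ^ 2 ∣ a) {z w x : ℚ_[p]} (hzw : z ≠ 0 ∨ w ≠ 0)
    (hx : (a : ℚ_[p]) * x ^ m = hom h z w) :
    ∃ u v : ZMod p, (u ≠ 0 ∨ v ≠ 0) ∧ hom h u v = 0 ∧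
      ∀ (k : K) (d : ℤ), ¬ (p : ℤ) ∣ d → (∃ y : ℚ_[p], hom (g k) z w = (d : ℚ_[p]) * y ^ n) →
        ∃ y : ZMod p, hom (g k) u v = (d : ZMod p) * y ^ n := by
  obtain ⟨c, z', w', hc, hz, hw, hu⟩ := primitive hzw
  have hh0 : hom h (PadicInt.toZMod z') (PadicInt.toZMod w') = 0 := by
    by_contra hk
    rw [← hom_map] at hk
    obtain ⟨e, he⟩ := hdegh
    have h1 : ((hom h z' w' : ℤ_[p]) : ℚ_[p]) = (a : ℚ_[p]) * (c ^ e * x) ^ m := by
      rw [hom_coe, ← hz, ← hw, hom_mul, ← hx, he, mul_pow, ← pow_mul, mul_comm e m]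
      ring
    have h2 := val_of_toZMod hk
    have h3 := coe_ne_zero_of hk
    rw [h1] at h2 h3
    have h4 : (c ^ e * x) ^ m ≠ 0 := right_ne_zero_of_mul h3
    have ha0 : (a : ℚ_[p]) ≠ 0 := left_ne_zero_of_mul h3
    have hva : (a : ℚ_[p]).valuation = 1 := by
      obtain ⟨q, hq⟩ := hpa
      have hpq : ¬ (p : ℤ) ∣ q := by
        intro h5
        obtain ⟨q', hq'⟩ := h5
        exact hpa2 ⟨q', by rw [hq, hq']; ring⟩
      have hq0 : (q : ℚ_[p]) ≠ 0 := by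
        intro h5
        apply ha0
        rw [hq, Int.cast_mul, h5, mul_zero]
      have hp0 : (p : ℚ_[p]) ≠ 0 := by exact_mod_cast hp.out.ne_zero
      rw [hq, Int.cast_mul, Int.cast_natCast, Padic.valuation_mul hp0 hq0, Padic.valuation_p,
        Padic.valuation_intCast, padicValInt.eq_zero_of_not_dvd hpq]
      rfl
    rw [Padic.valuation_mul ha0 h4, Padic.valuation_pow, hva] at h2
    have h5 : (m : ℤ) ∣ 1 := ⟨-(c ^ e * x).valuation, by linarith⟩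
    have h6 := Int.le_of_dvd one_pos h5
    omega
  refine ⟨_, _, hu, hh0, fun k d hd hy => ?_⟩
  obtain ⟨y, hy⟩ := hy
  have hk := hNC _ _ hu k hh0
  rw [← hom_map] at hk
  obtain ⟨e, he⟩ := hdeg k
  have h1 : ((hom (g k) z' w' : ℤ_[p]) : ℚ_[p]) = (d : ℚ_[p]) * (c ^ e * y) ^ n := by
    rw [hom_coe, ← hz, ← hw, hom_mul, hy, he, mul_pow, ← pow_mul, mul_comm e n]
    ring
  have h2 := PadicInt.isUnit_iff.1 (isUnit_of_toZMod hk)
  rw [PadicInt.norm_def, h1, norm_mul, norm_pow] at h2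
  have h3 : ‖(d : ℚ_[p])‖ = 1 := by
    rw [Padic.norm_intCast_eq_one_iff]
    exact (Int.isCoprime_iff_gcd_eq_one.2 (by
      rw [Int.gcd_comm]
      exact_mod_cast (Nat.Prime.coprime_iff_not_dvd hp.out).2 (fun h => hd (Int.natCast_dvd.2 h))))
  rw [h3, one_mul] at h2
  have h4 : ‖c ^ e * y‖ = 1 := (pow_eq_one_iff_of_nonneg (norm_nonneg _) hn.ne').1 h2
  obtain ⟨y', hy'⟩ : ∃ y' : ℤ_[p], (y' : ℚ_[p]) = c ^ e * y := ⟨⟨c ^ e * y, h4.le⟩, rfl⟩
  refine ⟨PadicInt.toZMod y', ?_⟩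
  rw [← hom_map]
  have h5 : hom (g k) z' w' = (d : ℤ_[p]) * y' ^ n := by
    apply Subtype.coe_injective
    change ((hom (g k) z' w' : ℤ_[p]) : ℚ_[p]) = (((d : ℤ_[p]) * y' ^ n : ℤ_[p]) : ℚ_[p])
    rw [h1, PadicInt.coe_mul, PadicInt.coe_pow, hy', PadicInt.coe_intCast]
  rw [h5, map_mul, map_pow, map_intCast]

/-- **Finite descent.** -/
theorem fd_main {K : Type} [Fintype K] (n : ℕ) (hn : 0 < n) (b : ℤ) (hb : b ≠ 0) (g : K → ℤ[X])
    (h : ℤ[X]) (hg0 : ∀ k, g k ≠ 0) (hh0 : h ≠ 0) (hdeg : ∀ k, n ∣ (g k).natDegree)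
    (hgg : ∀ k l, k ≠ l →
      IsCoprime ((g k).map (Int.castRingHom ℚ)) ((g l).map (Int.castRingHom ℚ)))
    (hgh : ∀ k, IsCoprime (h.map (Int.castRingHom ℚ)) ((g k).map (Int.castRingHom ℚ))) :
    ∃ PP : Set (Set ℕ), PP.Finite ∧ (∀ P ∈ PP, Big P) ∧ ∀ a : ℤ, (∀ P ∈ PP, Hit P a) →
      ∀ m, 2 ≤ m → m ∣ h.natDegree → ∀ δ : K → ℚ, IsClass n b δ →
        (∀ (p : ℕ) [Fact p.Prime], CoveringHasPoint n m a g h δ ℚ_[p]) → Persistent n g h δ := by
  classical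
  obtain ⟨N0, hN0, hgood⟩ := good_primes g h hg0 hh0 hgg hgh
  set N : ℕ := N0 * b.natAbs with hN
  have hNpos : 0 < N := Nat.mul_pos hN0 (Int.natAbs_pos.2 hb)
  have hgoodN : ∀ p : ℕ, ¬ p ∣ N → ¬ p ∣ N0 ∧ ¬ (p : ℤ) ∣ b := fun p hp =>
    ⟨fun h1 => hp (h1.trans (Dvd.intro _ rfl)),
      fun h1 => hp ((Int.natCast_dvd.1 h1).trans (Dvd.intro_left _ rfl))⟩
  -- the finite set of the classes
  set D : Finset ℤ := (Finset.Icc (-((N : ℤ) ^ n)) ((N : ℤ) ^ n)).filter (fun s => s ∣ (N : ℤ) ^ n)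
    with hD
  have hNn : (0 : ℤ) < (N : ℤ) ^ n := pow_pos (by exact_mod_cast hNpos) n
  have hmemD : ∀ s : ℤ, s ∣ (N : ℤ) ^ n → s ∈ D := by
    intro s hs
    rw [hD, mem_filter, Finset.mem_Icc]
    have h1 := Int.le_of_dvd hNn hs
    have h2 := Int.le_of_dvd hNn ((neg_dvd).2 hs)
    exact ⟨⟨by linarith, h1⟩, hs⟩
  have hD0 : ∀ s ∈ D, s ≠ 0 := by
    rintro s hs rfl
    rw [hD, mem_filter] at hs
    exact hNn.ne' (zero_dvd_iff.1 hs.2)
  set Δ : Finset (K → ℤ) := (Fintype.piFinset fun _ : K => D).filter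
    (fun s => ¬ Persistent n g h (fun k => (s k : ℚ))) with hΔ
  -- for each class there are many primes
  have hex : ∀ s ∈ Δ, ∃ P : Set ℕ, Big P ∧ ∀ p ∈ P, ¬ p ∣ N ∧ ¬ R p n g h s := by
    intro s hs
    rw [hΔ, mem_filter, Fintype.mem_piFinset] at hs
    obtain ⟨hsD, hnp⟩ := hs
    unfold Persistent at hnp
    push Not at hnp
    obtain ⟨σ, hσ⟩ := hnp
    obtain ⟨L, iF, iN, iG, τ, m, hm, hL⟩ := cheb n hn g h hh0 hdeg s (fun k => hD0 _ (hsD k)) σ (by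
      intro β h1 h2
      obtain ⟨k, hk⟩ := hσ β h1 h2
      refine ⟨k, fun y hy => ?_⟩
      have h3 := hk y hy
      rw [Rat.cast_intCast] at h3
      exact h3)
    refine ⟨frobSet L τ (m * N), frob_big L τ (m * N) (Nat.mul_pos hm hNpos), fun p hp => ?_⟩
    exact ⟨fun h4 => hp.2.1 (h4.trans (Dvd.intro_left _ rfl)),
      hL p ⟨hp.1, fun h4 => hp.2.1 (h4.trans (Dvd.intro _ rfl)), hp.2.2⟩⟩
  choose! P hPbig hP using hex
  refine ⟨P '' (Δ : Set (K → ℤ)), Δ.finite_toSet.image P, ?_, ?_⟩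
  · rintro _ ⟨s, hs, rfl⟩
    exact hPbig s hs
  · intro a hhit m hm hmh δ hδ hloc
    by_contra hnp
    obtain ⟨hδ0, t, ht⟩ := hδ
    have hval : ∀ k, ∀ p : ℕ, p.Prime → ¬ p ∣ N → (n : ℤ) ∣ padicValRat p (δ k) := by
      intro k p hp hpN
      have hpF : Fact p.Prime := ⟨hp⟩
      obtain ⟨z, w, x, hzw, hx, hy⟩ := hloc p
      exact val_dvd hdeg (fun u v huv => (hgood p hpF (hgoodN p hpN).1 u v huv).1) hb
        (hgoodN p hpN).2 hδ0 ht hzw hy k
    choose s c hs hc hsc using fun k => rep (δ k) (hδ0 k) N hNpos n hn (hval k)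
    have hsΔ : s ∈ Δ := by
      rw [hΔ, mem_filter, Fintype.mem_piFinset]
      refine ⟨fun k => hmemD _ (hs k), fun hper => hnp ?_⟩
      intro σ
      obtain ⟨β, hβ, hβh, hy⟩ := hper σ
      refine ⟨β, hβ, hβh, fun k => ?_⟩
      obtain ⟨y, hyσ, hyk⟩ := hy k
      have hck : ((c k : ℚ) : AlgebraicClosure ℚ) ≠ 0 := Rat.cast_ne_zero.2 (hc k)
      have hσc : σ ((c k : ℚ) : AlgebraicClosure ℚ) = ((c k : ℚ) : AlgebraicClosure ℚ) :=
        map_ratCast σ (c k)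
      refine ⟨y / (c k : ℚ), ?_, ?_⟩
      · rw [map_div₀, hyσ, hσc]
      · rw [hyk, hsc k, div_pow]
        push_cast
        have h5 : ((c k : ℚ) : AlgebraicClosure ℚ) ^ n ≠ 0 := pow_ne_zero _ hck
        field_simp
    obtain ⟨p, hpP, hpp, hpa, hpa2⟩ := hhit (P s) ⟨s, hsΔ, rfl⟩
    obtain ⟨hpN, hR⟩ := hP s hsΔ p hpP
    have hpF : Fact p.Prime := ⟨hpp⟩
    apply hR
    obtain ⟨z, w, x, hzw, hx, hy⟩ := hloc p
    obtain ⟨u, v, huv, hhuv, hred⟩ := reduces_once (K := K) hn hm hdeg hmh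
      (fun u v huv => (hgood p hpF (hgoodN p hpN).1 u v huv).2) hpa hpa2 hzw hx
    refine ⟨u, v, huv, hhuv, fun k => ?_⟩
    refine hred k (s k) (fun h3 => ?_) ?_
    · have h4 : (p : ℤ) ∣ (N : ℤ) ^ n := h3.trans (hs k)
      have h5 := (Nat.prime_iff_prime_int.1 hpF.out).dvd_of_dvd_pow h4
      exact hpN (by exact_mod_cast h5)
    · obtain ⟨y, hyk⟩ := hy k
      refine ⟨(c k : ℚ) * y, ?_⟩
      rw [hyk, hsc k]
      push_cast
      ring

end Pool.Agent.N676.OR
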