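import Pool.Agent.N676.OR.FD

/-!
# Random orbits: sections over the twists of a cyclic covering

Owner helper676. The proofs of `Pool.Agent.R925.FD.Sec3`, `Sec4` with a prime which divides `a` exactly
once instead of a squarefree `a`.
-/

set_option autoImplicit false
set_option linter.unusedSectionVars false

namespace Pool.Agent.N676.OR

open Finset Polynomial IsDedekindDomain NumberField
open Pool.Agent.R925.FD Pool.Agent.TH954 Pool.Agent.TH942

/-- a prime which divides `a` exactly once and `a * x ^ m = r` -/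
lemma bound_once {a : ℤ} {p : ℕ} (hpp : p.Prime) (hpa : (p : ℤ) ∣ a) (hpa2 : ¬ (p : ℤ) ^ 2 ∣ a)
    {m : ℕ} (hm : 2 ≤ m) {x r : ℚ} (hr : r ≠ 0) (h : (a : ℚ) * x ^ m = r) :
    p ≤ r.num.natAbs * r.den := by
  have hpos : 0 < r.num.natAbs * r.den :=
    Nat.mul_pos (Int.natAbs_pos.2 (Rat.num_ne_zero.2 hr)) r.den_pos
  apply Nat.le_of_dvd hpos
  have : Fact p.Prime := ⟨hpp⟩
  have haz : a ≠ 0 := by
    rintro rfl
    exact hpa2 (dvd_zero _)
  have hx0 : x ≠ 0 := by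
    rintro rfl
    rw [zero_pow (by omega), mul_zero] at h
    exact hr h.symm
  have ha0 : (a : ℚ) ≠ 0 := Int.cast_ne_zero.2 haz
  have h1 : padicValRat p r = padicValRat p (a : ℚ) + m * padicValRat p x := by
    rw [← h, padicValRat.mul ha0 (pow_ne_zero m hx0), padicValRat.pow]
  have h2 : padicValRat p (a : ℚ) = 1 := by
    rw [padicValRat.of_int]
    obtain ⟨q, rfl⟩ := hpa
    have hq : ¬ (p : ℤ) ∣ q := fun ⟨q', hq'⟩ => hpa2 ⟨q', by rw [hq']; ring⟩
    have hq0 : q ≠ 0 := by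
      rintro rfl
      exact hq (dvd_zero _)
    have hp0 : (p : ℤ) ≠ 0 := by exact_mod_cast hpp.ne_zero
    rw [padicValInt.mul hp0 hq0, padicValInt.self hpp.one_lt, padicValInt.eq_zero_of_not_dvd hq]
    rfl
  by_contra hcon
  have h5 : padicValRat p r = 0 := by
    have h6 : padicValRat p r = (padicValInt p r.num : ℤ) - padicValNat p r.den := rfl
    rw [h6, padicValInt.eq_zero_of_not_dvd, padicValNat.eq_zero_of_not_dvd]
    · rfl
    · exact fun h => hcon (Dvd.dvd.mul_left h _)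
    · exact fun h => hcon (Dvd.dvd.mul_right (Int.natCast_dvd.1 h) _)
  rw [h5, h2] at h1
  have h6 : (m : ℤ) ∣ 1 := ⟨-padicValRat p x, by linarith⟩
  have h7 := Int.le_of_dvd one_pos h6
  omega

/-- The section comes from exactly one rational point, which lies over a zero of `h` if a large prime
divides `a` exactly once. -/
theorem bsc_loc_once {M₀ : ℕ} (hM₀ : 1 ≤ M₀) {f h : ℤ[X]} (hh0 : h ≠ 0) {α : ℤ}
    (hf : EllipticFactor f α M₀) :
    ∃ N : ℕ, ∀ (F Ω B : Type) [Field F] [Field Ω] [Field B] [Algebra ℚ F] [Algebra F Ω]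
      [Algebra ℚ Ω] [Algebra ℚ B] [IsScalarTower ℚ F Ω] [IsAlgClosure F Ω] [IsAlgClosure ℚ B]
      (S : GalSection ℚ F Ω B), LocallyGeometric S → ∀ (z x : F), Transcendental ℚ z →
      Algebra.IsAlgebraic (IntermediateField.adjoin ℚ {z}) F → ∀ (m : ℕ) (a : ℤ), 2 ≤ m →
      m ∣ h.natDegree → (∃ p : ℕ, p.Prime ∧ N < p ∧ (p : ℤ) ∣ a ∧ ¬ (p : ℤ) ^ 2 ∣ a) →
      (a : F) * x ^ m = aeval z h →
      ∀ (d : ℚ) (γ : Ω), IsSquare (d * (f.eval α : ℤ)) → (∀ σ, S.s σ γ = γ) →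
      algebraMap F Ω (aeval z f) = (d : Ω) * γ ^ 2 →
      ∃ O : ValuationSubring F, S.ArisesFrom O ∧ (∀ O', S.ArisesFrom O' → O' = O) ∧ x⁻¹ ∉ O := by
  classical
  obtain ⟨A, B', p, q, r, s, c, hdisc, hfin, hSha, hps, hc, hfα, ⟨r₁, hr₁⟩, hfe⟩ := hf
  have hrs : r ≠ 0 ∨ s ≠ 0 := by
    by_contra h
    push Not at h
    apply hps
    rw [h.1, h.2]
    ring
  -- the values of `z`
  let xc : (sw (A : ℚ) (B' : ℚ)).toAffine.Point → ℚ := fun P =>
    match P with
    | .zero => 0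
    | .some x _ _ => x
  set T : Set ℚ := {ρ | ρ = hom h (-s) r ∨ ∃ P, ρ = hom h (xc P * s - q) (p - xc P * r)} with hT
  have hTf : T.Finite := by
    have h1 : T = {hom h (-s) r} ∪ Set.range (fun P => hom h (xc P * s - q) (p - xc P * r)) := by
      ext ρ
      constructor
      · rintro (h | ⟨P, h⟩)
        · exact Or.inl h
        · exact Or.inr ⟨P, h.symm⟩
      · rintro (h | ⟨P, h⟩)
        · exact Or.inl h
        · exact Or.inr ⟨P, h.symm⟩
    rw [h1]
    exact (Set.finite_singleton _).union (Set.finite_range _)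
  obtain ⟨N, hN⟩ := (hTf.image (fun ρ : ℚ => ρ.num.natAbs * ρ.den)).bddAbove
  refine ⟨N, ?_⟩
  intro F Ω B _ _ _ _ _ _ _ _ _ _ S hS z x hz halg m a hm hmh hap hx d γ hd hγ hfγ
  obtain ⟨p₀, hp₀, hNp, hpa, hpa2⟩ := hap
  have ha : a ≠ 0 := by
    rintro rfl
    exact hpa2 (dvd_zero _)
  have hbig : ∀ {u v : ℚ}, hom h u v ∈ T → ∀ x₀ : ℚ, (a : ℚ) * x₀ ^ m = hom h u v →
      hom h u v = 0 := by
    intro u v huv x₀ hx₀
    by_contra hne
    have h1 := bound_once hp₀ hpa hpa2 hm hne hx₀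
    have h2 := hN ⟨_, huv, rfl⟩
    exact absurd (h1.trans h2) (not_le.2 hNp)
  obtain ⟨r₂, hr₂⟩ := hd
  have hcF : CharZero F := charZero_of_injective_algebraMap (algebraMap ℚ F).injective
  have hcΩ : CharZero Ω := charZero_of_injective_algebraMap (algebraMap F Ω).injective
  set v : ℚ := ((f.eval α : ℤ) : ℚ) with hv
  have hv0 : v ≠ 0 := Int.cast_ne_zero.2 hfα
  set U : F := algebraMap ℚ F p * z + algebraMap ℚ F q with hU
  set V : F := algebraMap ℚ F r * z + algebraMap ℚ F s with hV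
  have hV0 : V ≠ 0 := lin_ne hz hrs
  have hXc : ∀ κ : ℚ, U / V ≠ algebraMap ℚ F κ := by
    intro κ hκ
    rw [div_eq_iff hV0] at hκ
    have h1 : algebraMap ℚ F (p - κ * r) * z + algebraMap ℚ F (q - κ * s) = 0 := by
      simp only [map_sub, map_mul]
      linear_combination hκ
    refine lin_ne hz ?_ h1
    by_contra h
    push Not at h
    apply hps
    linear_combination s * h.1 - r * h.2
  have hfz : aeval z f = algebraMap ℚ F c * V ^ 4 *
      ((U / V) ^ 3 + algebraMap ℚ F (A : ℚ) * (U / V) + algebraMap ℚ F (B' : ℚ)) := by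
    rw [aeval_int, hfe]
    simp only [map_mul, map_add, map_pow, aeval_C, aeval_X]
    rw [← hU, ← hV]
    field_simp
  have hvΩ : (v : Ω) ≠ 0 := Rat.cast_ne_zero.2 hv0
  have hcΩ0 : (c : Ω) ≠ 0 := Rat.cast_ne_zero.2 hc
  have hVΩ : algebraMap F Ω V ≠ 0 := (_root_.map_ne_zero _).2 hV0
  set Y : Ω := (r₁ : Ω) * r₂ * γ / (v * c * algebraMap F Ω V ^ 2) with hY
  have hYfix : ∀ g, S.s g Y = Y := by
    intro g
    rw [hY, map_div₀, map_mul, map_mul, map_mul, map_mul, map_ratCast, map_ratCast, map_ratCast,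
      map_ratCast, map_pow, hγ g, AlgEquiv.commutes]
  have hr₁' : (r₁ : Ω) ^ 2 = c * v := by
    rw [sq]
    exact_mod_cast congrArg (Rat.cast (K := Ω)) hr₁.symm
  have hr₂' : (r₂ : Ω) ^ 2 = d * v := by
    rw [sq]
    exact_mod_cast congrArg (Rat.cast (K := Ω)) hr₂.symm
  have hfΩ := hfγ
  rw [hfz] at hfΩ
  have hYX : Y ^ 2 = algebraMap F Ω (U / V) ^ 3 + algebraMap ℚ Ω (A : ℚ) * algebraMap F Ω (U / V) +
      algebraMap ℚ Ω (B' : ℚ) := by
    have h1 : algebraMap F Ω (U / V) ^ 3 + algebraMap ℚ Ω (A : ℚ) * algebraMap F Ω (U / V) +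
        algebraMap ℚ Ω (B' : ℚ) = (d * γ ^ 2) / (c * algebraMap F Ω V ^ 4) := by
      rw [eq_div_iff (mul_ne_zero hcΩ0 (pow_ne_zero 4 hVΩ)), ← hfΩ]
      simp only [map_mul, map_add, map_pow, ← IsScalarTower.algebraMap_apply]
      rw [eq_ratCast (algebraMap ℚ Ω) c]
      ring
    rw [h1, hY, div_pow, mul_pow, mul_pow, hr₁', hr₂']
    field_simp
  obtain ⟨O, h1, h2, h3⟩ := bir_pt' (shortInt_of hdisc)
    hfin hM₀ hSha S hS ⟨z, hz, halg⟩ (U / V) hXc Y hYfix hYX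
  refine ⟨O, h1, h2, ?_⟩
  have hO := h1.2.1
  have hO2 := h1.2.2.1
  have haF : (a : F) ≠ 0 := Int.cast_ne_zero.2 ha
  have hx0 : x ≠ 0 := by
    rintro rfl
    rw [zero_pow (by omega : m ≠ 0), mul_zero] at hx
    exact aeval_ne_zero hz hh0 hx.symm
  have hval0 : ∀ {y : F}, y ≠ 0 → O.valuation y ≠ 0 := fun hy => (Valuation.ne_zero_iff _).2 hy
  rcases h3 with h3 | ⟨a', b', hns, h3⟩
  · have h4 : O.valuation (algebraMap ℚ F r * z - algebraMap ℚ F (-s)) <
        O.valuation (algebraMap ℚ F p * z + algebraMap ℚ F q) := by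
      have h5 : algebraMap ℚ F r * z - algebraMap ℚ F (-s) = V := by
        rw [map_neg, sub_neg_eq_add]
      rw [h5, ← hU]
      rw [← O.valuation_le_one_iff, not_le, map_div₀] at h3
      exact (one_lt_div₀ (zero_lt_iff.2 (hval0 hV0))).1 h3
    obtain ⟨h6, h7⟩ := cases_of_lt hO h4
    refine locate hh0 (by omega) hmh ha hO hO2 hx0 hx (u := -s) (v := r) ?_ h6 h7
      (hbig (Or.inl rfl))
    rcases hrs with h | h
    · exact Or.inr h
    · exact Or.inl (neg_ne_zero.2 h)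
  · have hXa : U / V - algebraMap ℚ F a' ≠ 0 := sub_ne_zero.2 (hXc a')
    have h4 : O.valuation (algebraMap ℚ F (p - a' * r) * z - algebraMap ℚ F (a' * s - q)) <
        O.valuation (algebraMap ℚ F r * z + algebraMap ℚ F s) := by
      have h5 : algebraMap ℚ F (p - a' * r) * z - algebraMap ℚ F (a' * s - q) =
          (U / V - algebraMap ℚ F a') * V := by
        rw [sub_mul, div_mul_cancel₀ _ hV0]
        simp only [map_sub, map_mul]
        ring
      rw [h5, ← hV, map_mul]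
      rw [← O.valuation_le_one_iff, not_le, map_inv₀] at h3
      have h6 : O.valuation (U / V - algebraMap ℚ F a') < 1 :=
        (one_lt_inv₀ (zero_lt_iff.2 (hval0 hXa))).1 h3
      calc O.valuation (U / V - algebraMap ℚ F a') * O.valuation V
          < 1 * O.valuation V := mul_lt_mul_of_pos_right h6 (zero_lt_iff.2 (hval0 hV0))
        _ = O.valuation V := one_mul _
    obtain ⟨h6, h7⟩ := cases_of_lt hO h4
    refine locate hh0 (by omega) hmh ha hO hO2 hx0 hx (u := a' * s - q) (v := p - a' * r)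
      ?_ h6 h7 (hbig (Or.inr ⟨.some a' b' hns, rfl⟩))
    by_contra hcon
    push Not at hcon
    apply hps
    linear_combination r * hcon.1 + s * hcon.2

variable {K : Type} [Fintype K]

lemma big_univ : Big Set.univ := by
  intro h
  apply not_summable_one_div_on_primes
  have h2 : {p : ℕ | p.Prime ∧ p ∈ Set.univ} = {p : ℕ | p.Prime} := by
    ext p
    simp
  rw [h2] at h
  exact h

lemma Hit.ne_zero {P : Set ℕ} {a : ℤ} (h : Hit P a) : a ≠ 0 := by
  rintro rfl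
  obtain ⟨p, -, -, -, h⟩ := h
  exact h (dvd_zero _)

theorem sec_once {n : ℕ} (hn : 0 < n) {b : ℤ} (hb : b ≠ 0) {g : K → ℤ[X]} {h : ℤ[X]}
    (hg0 : ∀ k, g k ≠ 0) (hh0 : h ≠ 0) (hdeg : ∀ k, n ∣ (g k).natDegree)
    (hgg : ∀ k l, k ≠ l →
      IsCoprime ((g k).map (Int.castRingHom ℚ)) ((g l).map (Int.castRingHom ℚ)))
    (hgh : ∀ k, IsCoprime (h.map (Int.castRingHom ℚ)) ((g k).map (Int.castRingHom ℚ))) :
    ∃ PP : Set (Set ℕ), PP.Finite ∧ (∀ P ∈ PP, Big P) ∧ ∀ a : ℤ, (∀ P ∈ PP, Hit P a) →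
      ∀ m, 2 ≤ m → m ∣ h.natDegree → SectionsPersistent n m b a g h := by
  classical
  obtain ⟨PP, h1, h2, h3⟩ := fd_main n hn b hb g h hg0 hh0 hdeg hgg hgh
  refine ⟨insert Set.univ PP, h1.insert _, ?_, ?_⟩
  · intro P hP
    rcases Set.mem_insert_iff.1 hP with rfl | hP
    · exact big_univ
    · exact h2 P hP
  · intro a hhit m hm hmh
    have ha : a ≠ 0 := (hhit Set.univ (Set.mem_insert _ _)).ne_zero
    intro F Ω B _ _ _ _ _ _ _ _ _ _ z x y hz hy hx s hs
    obtain ⟨δ, h4, h5⟩ := exists_sectionClass hn hb hg0 s hz hy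
    exact ⟨δ, h4, h5, h3 a (fun P hP => hhit P (Set.mem_insert_of_mem _ hP)) m hm hmh δ h4
      (fun p _ => cov_of_section hn (by omega) ha hdeg hmh s hs hz hx h4.1 h5 p)⟩

theorem fromZeros_once {b : ℤ} (hb : b ≠ 0) {g : K → ℤ[X]} {h : ℤ[X]}
    (hg0 : ∀ k, g k ≠ 0) (hh0 : h ≠ 0) (hdeg : ∀ k, 2 ∣ (g k).natDegree)
    (hgg : ∀ k l, k ≠ l →
      IsCoprime ((g k).map (Int.castRingHom ℚ)) ((g l).map (Int.castRingHom ℚ)))
    (hgh : ∀ k, IsCoprime (h.map (Int.castRingHom ℚ)) ((g k).map (Int.castRingHom ℚ)))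
    (hOZ : OnlyZeros b g h) {M₀ : ℕ} (hM₀ : 1 ≤ M₀) (T : Finset K)
    (hT : ∀ α : ℤ, h.eval α = 0 → EllipticFactor (∏ k ∈ T, g k) α M₀) :
    ∃ PP : Set (Set ℕ), PP.Finite ∧ (∀ P ∈ PP, Big P) ∧ ∀ a : ℤ, (∀ P ∈ PP, Hit P a) →
      ∀ m, 2 ≤ m → m ∣ h.natDegree → SectionsFromZeros 2 m b a g h := by
  classical
  obtain ⟨PP, q1, q2, q3⟩ := sec_once (n := 2) (by norm_num) hb hg0 hh0 hdeg hgg hgh
  -- the constant
  have hroots : {α : ℤ | h.eval α = 0}.Finite := by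
    refine (Polynomial.finite_setOfPred_isRoot hh0).subset ?_
    intro α hα
    exact hα
  choose N hN using fun α : {α : ℤ // h.eval α = 0} => bsc_loc_once hM₀ hh0 (hT α.1 α.2)
  obtain ⟨N₀, hN₀⟩ : ∃ N₀ : ℕ, ∀ α, N α ≤ N₀ := by
    have : Finite {α : ℤ // h.eval α = 0} := hroots
    obtain ⟨N₀, hN₀⟩ := (Set.finite_range N).bddAbove
    exact ⟨N₀, fun α => hN₀ ⟨α, rfl⟩⟩
  refine ⟨insert {p ∈ (Set.univ : Set ℕ) | N₀ < p} PP, q1.insert _, ?_, ?_⟩
  · intro P hP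
    rcases Set.mem_insert_iff.1 hP with rfl | hP
    · exact big_univ.above N₀
    · exact q2 P hP
  · intro a hhit m hm hmh F Ω B _ _ _ _ _ _ _ _ _ _ z x y hz halg hy hx s hs
    have hP := q3 a (fun P hP => hhit P (Set.mem_insert_of_mem _ hP)) m hm hmh
    have hcF : CharZero F := charZero_of_injective_algebraMap (algebraMap ℚ F).injective
    have hcΩ : CharZero Ω := charZero_of_injective_algebraMap (algebraMap F Ω).injective
    obtain ⟨δ, h3, h4, h5⟩ := hP F Ω B z x y hz hy hx s hs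
    obtain ⟨α, hα, hsq⟩ := hOZ δ h3 h5
    choose γ hγ hγ' using h4
    obtain ⟨p, hp1, hp2, hp3, hp4⟩ := hhit _ (Set.mem_insert _ _)
    have hlt : N ⟨α, hα⟩ < p := lt_of_le_of_lt (hN₀ _) hp1.2
    obtain ⟨O, h6, h7, h8⟩ := hN ⟨α, hα⟩ F Ω B s hs z x hz halg m a hm hmh
      ⟨p, hp2, hlt, hp3, hp4⟩ hx
      (∏ k ∈ T, δ k) (∏ k ∈ T, γ k) (by
        choose r hr using hsq
        refine ⟨∏ k ∈ T, r k, ?_⟩
        rw [eval_prod, Int.cast_prod, ← prod_mul_distrib, ← prod_mul_distrib]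
        exact prod_congr rfl fun k _ => hr k) (by
        intro σ
        rw [map_prod]
        exact prod_congr rfl fun k _ => hγ k σ) (by
        rw [map_prod, map_prod, prod_congr rfl fun k _ => hγ' k, prod_mul_distrib, prod_pow,
          Rat.cast_prod])
    exact ⟨⟨O, h6, h7⟩, fun O' hO' => by rw [h7 O' hO']; exact h8⟩

end Pool.Agent.N676.OR
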